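import Pool.Agent.V11222.BlumMain

/-!
A compact linearly ordered topological space without the Blumberg property, in ZFC.
-/

namespace Pool.Agent.Results.MP_184855_gt.NoBlumberg

open Set Pool.Agent.V11222

/-- The Blumberg property: every real function has a continuous restriction to some dense
subset, with the subspace topology. -/
def Blumberg (X : Type) [TopologicalSpace X] : Prop :=
  ∀ f : X → ℝ, ∃ D : Set X, Dense D ∧ Continuous (D.restrict f)

/-- There is a compact linearly ordered topological space `K` that does not have the Blumberg
property. -/
theorem result : ∃ (K : Type) (_ : LinearOrder K) (_ : TopologicalSpace K) (_ : OrderTopology K),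
    CompactSpace K ∧ ¬ Blumberg K := by
  obtain ⟨K, _, _, _, hK, f, hf⟩ := Blum.exists_compact_lots
  refine ⟨K, inferInstance, inferInstance, inferInstance, hK, fun h => ?_⟩
  obtain ⟨D, hD, hc⟩ := h f
  exact hf D hD (continuousOn_iff_continuous_restrict.mpr hc)

end Pool.Agent.Results.MP_184855_gt.NoBlumberg
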